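import Mathlib
import Pool.Agent.Lib.MP_dd0645_co.Main

/-!
# MP_dd0645_co: alternating Hamilton paths in balanced 2-coloured complete graphs

In every balanced 2-colouring of `K_{2n+1}` there is, for every ordered pair `u ≠ v` of vertices
and each of the two colours `b`, an alternating Hamilton path from `u` to `v` whose first edge has
colour `b`.
-/

namespace Pool.Agent.Results.MP_dd0645_co.AlternatingHamilton

open Finset Pool.Agent.MP_dd0645_co

/-- A colouring `c` of the edges of the complete graph on `V` with two colours (the values of `c`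
on the diagonal of `Sym2 V` play no role) is balanced with parameter `n` if every vertex `x` is
incident with exactly `n` edges of each of the two colours. -/
def IsBalanced {V : Type} (c : Sym2 V → Bool) (n : ℕ) : Prop :=
  ∀ (x : V) (b : Bool), {e : Sym2 V | e ∈ (⊤ : SimpleGraph V).incidenceSet x ∧ c e = b}.ncard = n

lemma IsBalanced.card_filter {V : Type} [Fintype V] [DecidableEq V] {c : Sym2 V → Bool} {n : ℕ}
    (h : IsBalanced c n) (x : V) (b : Bool) :
    (univ.filter (fun y => y ≠ x ∧ c s(x, y) = b)).card = n := by
  rw [← h x b, ← Set.ncard_coe_finset]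
  have : {e : Sym2 V | e ∈ (⊤ : SimpleGraph V).incidenceSet x ∧ c e = b} =
      (fun y => s(x, y)) '' (univ.filter (fun y => y ≠ x ∧ c s(x, y) = b) : Finset V) := by
    ext e
    rw [Set.mem_image]
    constructor
    · rintro ⟨h1, h2⟩
      obtain ⟨h3, h4⟩ := h1
      obtain ⟨y, rfl⟩ := Sym2.mem_iff_exists.1 h4
      rw [SimpleGraph.mem_edgeSet, SimpleGraph.top_adj] at h3
      exact ⟨y, by rw [mem_coe, mem_filter]; exact ⟨mem_univ _, h3.symm, h2⟩, rfl⟩
    · rintro ⟨y, h0, rfl⟩
      rw [mem_coe, mem_filter] at h0
      obtain ⟨-, h1, h2⟩ := h0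
      refine ⟨⟨?_, Sym2.mem_mk_left x y⟩, h2⟩
      rw [SimpleGraph.mem_edgeSet, SimpleGraph.top_adj]
      exact h1.symm
  rw [this, Set.ncard_image_of_injective]
  intro y z hyz
  exact Sym2.congr_right.1 hyz

/-- **Full answer to Q1: alternating Hamilton paths in balanced 2-coloured complete graphs.**
Let `n ≥ 1`, let `V` have `2n + 1` elements and let `c` be a balanced 2-colouring of the edges of
the complete graph on `V`. Then for all distinct vertices `u`, `v` and each colour `b` there is a
Hamilton path from `u` to `v` whose consecutive edges have different colours and whose first edge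
has colour `b`. -/
theorem result (n : ℕ) (hn : 1 ≤ n) (V : Type) [Fintype V] [DecidableEq V]
    (hV : Fintype.card V = 2 * n + 1) (c : Sym2 V → Bool) (hc : IsBalanced c n) (u v : V)
    (huv : u ≠ v) (b : Bool) :
    ∃ p : (⊤ : SimpleGraph V).Walk u v, p.IsHamiltonian ∧
      (p.edges.map c).IsChain (· ≠ ·) ∧ (p.edges.map c).head? = some b := by
  obtain ⟨p, h1, h2, h3, h4, h5⟩ := exists_seq (c := fun x y => xor (c s(x, y)) b)
    (fun x y => by rw [Sym2.eq_swap]) hn (fun x g => by
      rw [← hc.card_filter x (xor g b)]
      congr 1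
      ext y
      simp only [mem_filter, mem_univ, true_and]
      cases c s(x, y) <;> cases b <;> cases g <;> simp) hV huv
  obtain ⟨w, w1, w2⟩ := exists_walk p (2 * n) (fun i hi h => by
    have := h4 i (i + 1) (by omega) (by omega) h
    omega)
  subst h1
  subst h2
  have h6 : w.edges.map c = (List.range (2 * n)).map (fun i => xor (col i) b) := by
    rw [w2, List.map_map]
    apply List.map_congr_left
    intro i hi
    rw [List.mem_range] at hi
    rw [← h5 i hi]
    simp
  refine ⟨w, ?_, ?_, ?_⟩
  · intro x
    have hnd : w.support.Nodup := by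
      rw [w1]
      apply List.Nodup.map_on _ List.nodup_range
      intro i hi j hj h
      rw [List.mem_range] at hi hj
      exact h4 i j (by omega) (by omega) h
    apply List.count_eq_one_of_mem hnd
    obtain ⟨i, hi, rfl⟩ := h3 x
    rw [w1, List.mem_map]
    exact ⟨i, by rw [List.mem_range]; omega, rfl⟩
  · rw [h6, List.isChain_map, List.isChain_range]
    intro m hm
    rw [Nat.succ_eq_add_one, col_succ]
    cases col m <;> cases b <;> decide
  · rw [h6]
    obtain ⟨k, hk⟩ : ∃ k, 2 * n = k + 1 := ⟨2 * n - 1, by omega⟩
    rw [hk, List.range_succ_eq_map, List.map_cons, List.head?_cons]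
    cases b <;> decide

end Pool.Agent.Results.MP_dd0645_co.AlternatingHamilton
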